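import Pool.Agent.H626R2.Loc.GDefs

/-!
# Specialising the seeds, general base point (task G3)
-/

set_option autoImplicit false

namespace Pool.Agent.H626R2.Loc

open MvPolynomial

namespace G3

variable {K : Type} [Field K] {n : ℕ} {B₀ : Type} [CommRing B₀] [Algebra K B₀]

theorem gen_spec_aux [CharZero K] {B : Type} [CommRing B] [Algebra K B] [Algebra B₀ B]
    [IsScalarTower K B₀ B] {q D' e : ℕ}
    (s : Fin q → Fin n) (β : Fin n → B₀) (u w : Fin D' → B) (x : Fin q → B) :
    ∃ φ : MvPolynomial (Fin (D' + q + e) ⊕ Fin (D' + q + e)) B₀ →ₐ[K] B, ∀ m : Fin n,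
      φ (genG β (D' + q + e) m) = algebraMap B₀ B (β m) +
        ∑ l, u l * ∏ j ∈ Finset.univ.erase m, (w l - ((j : ℕ) : B)) +
          ∑ b, if s b = m then x b else 0 := by
  classical
  set c : Fin q → K := fun b => ∏ j ∈ Finset.univ.erase (s b), (((s b : ℕ) : K) - ((j : ℕ) : K))
    with hc
  have hc0 : ∀ b, c b ≠ 0 := by
    intro b
    rw [hc]
    refine Finset.prod_ne_zero_iff.mpr fun j hj => ?_
    rw [sub_ne_zero]
    intro h
    have h2 : (s b : ℕ) = (j : ℕ) := by exact_mod_cast h
    exact (Finset.mem_erase.mp hj).1 (Fin.ext h2.symm)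
  let y : Fin (D' + q + e) → B :=
    Fin.append (Fin.append u (fun b => algebraMap K B (c b)⁻¹ * x b)) (fun _ => 0)
  let z : Fin (D' + q + e) → B :=
    Fin.append (Fin.append w (fun b => ((s b : ℕ) : B))) (fun _ => 0)
  refine ⟨(aeval (R := B₀) (Sum.elim y z)).restrictScalars K, fun m => ?_⟩
  have h1 : ((aeval (R := B₀) (Sum.elim y z)).restrictScalars K :
      MvPolynomial (Fin (D' + q + e) ⊕ Fin (D' + q + e)) B₀ →ₐ[K] B)
      (genG β (D' + q + e) m) = algebraMap B₀ B (β m) +
      ∑ l, y l * ∏ j ∈ Finset.univ.erase m, (z l - ((j : ℕ) : B)) := by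
    rw [AlgHom.restrictScalars_apply]
    unfold genG
    rw [map_add, aeval_C, map_sum]
    congr 1
    refine Finset.sum_congr rfl fun l _ => ?_
    rw [map_mul, map_prod, aeval_X, Sum.elim_inl]
    congr 1
    refine Finset.prod_congr rfl fun j _ => ?_
    rw [map_sub, aeval_X, Sum.elim_inr, aeval_C, map_natCast]
  rw [h1, Fin.sum_univ_add, Fin.sum_univ_add]
  have h2 : ∑ i : Fin e, y (Fin.natAdd (D' + q) i) *
      ∏ j ∈ Finset.univ.erase m, (z (Fin.natAdd (D' + q) i) - ((j : ℕ) : B)) = 0 := by
    refine Finset.sum_eq_zero fun i _ => ?_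
    simp [y]
  rw [h2, add_zero, add_assoc]
  congr 2
  · refine Finset.sum_congr rfl fun l _ => ?_
    simp [y, z]
  · refine Finset.sum_congr rfl fun b _ => ?_
    have hy : y (Fin.castAdd e (Fin.natAdd D' b)) = algebraMap K B (c b)⁻¹ * x b := by
      simp [y]
    have hz : z (Fin.castAdd e (Fin.natAdd D' b)) = ((s b : ℕ) : B) := by
      simp [z]
    rw [hy, hz]
    by_cases h : s b = m
    · rw [if_pos h]
      have h3 : ∏ j ∈ Finset.univ.erase m, (((s b : ℕ) : B) -
          ((j : ℕ) : B)) = algebraMap K B (c b) := by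
        rw [hc, ← h]
        simp only
        rw [map_prod]
        refine Finset.prod_congr rfl fun j _ => ?_
        rw [map_sub, map_natCast, map_natCast]
      rw [h3, mul_right_comm, ← map_mul, inv_mul_cancel₀ (hc0 b), map_one, one_mul]
    · rw [if_neg h]
      have h3 : ∏ j ∈ Finset.univ.erase m, (((s b : ℕ) : B) - ((j : ℕ) : B)) = 0 := by
        refine Finset.prod_eq_zero (i := s b) (Finset.mem_erase.mpr ⟨h, Finset.mem_univ _⟩) ?_
        rw [sub_self]
      rw [h3, mul_zero]

theorem gen_spec [CharZero K] {B : Type} [CommRing B] [Algebra K B] [Algebra B₀ B]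
    [IsScalarTower K B₀ B] {q D' T : ℕ}
    (hT : q + D' ≤ T) (s : Fin q → Fin n) (β : Fin n → B₀) (u w : Fin D' → B) (x : Fin q → B) :
    ∃ φ : MvPolynomial (Fin T ⊕ Fin T) B₀ →ₐ[K] B, ∀ m : Fin n,
      φ (genG β T m) = algebraMap B₀ B (β m) +
        ∑ l, u l * ∏ j ∈ Finset.univ.erase m, (w l - ((j : ℕ) : B)) +
          ∑ b, if s b = m then x b else 0 := by
  obtain ⟨e, rfl⟩ : ∃ e, T = D' + q + e := ⟨T - (D' + q), by omega⟩
  exact gen_spec_aux s β u w x

end G3

section gen

variable {K : Type} [Field K] {n : ℕ} {B₀ : Type} [CommRing B₀] [Algebra K B₀]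

/-- G3. -/
theorem exists_specG2 [CharZero K] {r T' T : ℕ} (hT : r + T' ≤ T) (s : Fin r → Fin n)
    (hs : Function.Injective s) (β : Fin n → B₀) :
    ∃ φ : MvPolynomial (Fin T ⊕ Fin T) B₀ →ₐ[K]
        MvPolynomial (Fin r) (MvPolynomial (Fin T' ⊕ Fin T') B₀),
      ∀ f : MvPolynomial (Fin n) K,
        φ (evG K β T f) = aeval (fun b : Fin r => C (genG β T' (s b)) + X b)
          (MvPolynomial.map (evG K β T').toRingHom (ren s f)) := by
  obtain ⟨φ, hφ⟩ := G3.gen_spec (K := K) (B₀ := B₀)
    (B := MvPolynomial (Fin r) (MvPolynomial (Fin T' ⊕ Fin T') B₀)) hT s β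
    (fun l => C (X (Sum.inl l))) (fun l => C (X (Sum.inr l))) (fun b => X b)
  have hgen : ∀ m : Fin n,
      φ (genG β T m) = C (genG β T' m) + ∑ b, if s b = m then X b else 0 := by
    intro m
    rw [hφ m]
    congr 1
    unfold genG
    rw [map_add, map_sum]
    congr 1
    refine Finset.sum_congr rfl fun l _ => ?_
    rw [map_mul, map_prod]
    congr 1
    refine Finset.prod_congr rfl fun j _ => ?_
    rw [map_sub, map_natCast, map_natCast]
  refine ⟨φ, fun f => ?_⟩
  induction f using MvPolynomial.induction_on with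
  | C a =>
    have e1 : evG K β T (C a) = algebraMap K _ a := by
      unfold evG; rw [aeval_C]
    have e2 : ren s (C a : MvPolynomial (Fin n) K) = C (C a) := by
      unfold ren; rw [aeval_C]; rfl
    have e3 : (evG K β T').toRingHom (C a) = algebraMap K _ a := by
      show evG K β T' (C a) = _
      unfold evG; rw [aeval_C]
    rw [e1, e2, map_C, e3, aeval_C, AlgHom.commutes]
    rfl
  | add p q hp hq => simp only [map_add, hp, hq]
  | mul_X p m hp =>
    rw [map_mul, map_mul, map_mul, map_mul, map_mul, hp]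
    congr 1
    have e1 : evG K β T (X m) = genG β T m := by
      unfold evG; rw [aeval_X]
    rw [e1, hgen m]
    unfold ren
    rw [aeval_X]
    split_ifs with h
    · have hb : s h.choose = m := h.choose_spec
      rw [map_X, aeval_X, hb]
      congr 1
      rw [Finset.sum_eq_single h.choose]
      · rw [if_pos hb]
      · intro b _ hne
        rw [if_neg]
        intro h2
        exact hne (hs (h2.trans hb.symm))
      · intro h2
        exact absurd (Finset.mem_univ _) h2
    · have e3 : (evG K β T').toRingHom (X m) = genG β T' m := by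
        show evG K β T' (X m) = _
        unfold evG; rw [aeval_X]
      rw [map_C, e3, aeval_C]
      rw [Finset.sum_eq_zero, add_zero]
      · rfl
      · intro b _
        rw [if_neg]
        intro h2
        exact h ⟨b, h2⟩

end gen

end Pool.Agent.H626R2.Loc
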